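import Pool.Agent.Helper65.JE.Defs

/-!
MP_ce5406_an (team proof of helper65), block T6: linear families (van der Corput).
-/

open MeasureTheory Filter Topology Finset
open scoped BigOperators ComplexConjugate

namespace Pool.Agent.JE.LinAux

open Pool.Agent.JE

/-! ### finite averages -/

lemma norm_avg_le (N : ℕ) (a : ℕ → ℂ) (C : ℝ) (hC : 0 ≤ C) (ha : ∀ n < N, ‖a n‖ ≤ C) :
    ‖avg N a‖ ≤ C := by
  unfold avg
  rcases Nat.eq_zero_or_pos N with rfl | hN
  · simpa using hC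
  have hN' : (0 : ℝ) < N := by exact_mod_cast hN
  rw [norm_div, Complex.norm_natCast, div_le_iff₀ hN']
  calc ‖∑ n ∈ range N, a n‖ ≤ ∑ n ∈ range N, ‖a n‖ := norm_sum_le _ _
    _ ≤ ∑ n ∈ range N, C := sum_le_sum fun n hn => ha n (mem_range.1 hn)
    _ = C * N := by simp [mul_comm]

lemma norm_avg_le_ravg (N : ℕ) (a : ℕ → ℂ) : ‖avg N a‖ ≤ ravg N (fun n => ‖a n‖) := by
  unfold avg ravg
  rw [norm_div, Complex.norm_natCast]
  gcongr
  exact norm_sum_le _ _

lemma ravg_mono (N : ℕ) (a b : ℕ → ℝ) (h : ∀ n < N, a n ≤ b n) : ravg N a ≤ ravg N b := by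
  unfold ravg
  gcongr with n hn
  exact h n (mem_range.1 hn)

lemma ravg_nonneg (N : ℕ) (a : ℕ → ℝ) (h : ∀ n < N, 0 ≤ a n) : 0 ≤ ravg N a := by
  unfold ravg
  exact div_nonneg (sum_nonneg fun n hn => h n (mem_range.1 hn)) (Nat.cast_nonneg _)

lemma ravg_const (N : ℕ) (hN : 1 ≤ N) (c : ℝ) : ravg N (fun _ => c) = c := by
  unfold ravg
  have hN' : (N : ℝ) ≠ 0 := by positivity
  simp [hN']

lemma ravg_add (N : ℕ) (a b : ℕ → ℝ) : ravg N (fun n => a n + b n) = ravg N a + ravg N b := by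
  unfold ravg
  rw [sum_add_distrib, add_div]

lemma ravg_mul_left (N : ℕ) (c : ℝ) (a : ℕ → ℝ) : ravg N (fun n => c * a n) = c * ravg N a := by
  unfold ravg
  rw [← mul_sum, mul_div_assoc]

lemma avg_mul_left (N : ℕ) (c : ℂ) (a : ℕ → ℂ) : avg N (fun n => c * a n) = c * avg N a := by
  unfold avg
  rw [← mul_sum, mul_div_assoc]

lemma avg_mul_right (N : ℕ) (c : ℂ) (a : ℕ → ℂ) : avg N (fun n => a n * c) = avg N a * c := by
  unfold avg
  rw [← sum_mul, div_mul_eq_mul_div]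

lemma avg_comm (M N : ℕ) (a : ℕ → ℕ → ℂ) :
    avg M (fun m => avg N (fun n => a m n)) = avg N (fun n => avg M (fun m => a m n)) := by
  unfold avg
  rw [← sum_div, ← sum_div, sum_comm, div_div, div_div, mul_comm (N : ℂ)]

lemma conj_avg (N : ℕ) (a : ℕ → ℂ) : conj (avg N a) = avg N (fun n => conj (a n)) := by
  unfold avg
  rw [map_div₀, map_sum]
  simp

lemma norm_shift_sub (N h : ℕ) (a : ℕ → ℂ) (ha : ∀ n, ‖a n‖ ≤ 1) :
    ‖(∑ n ∈ range N, a (n + h)) - ∑ n ∈ range N, a n‖ ≤ 2 * h := by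
  induction h with
  | zero => simp
  | succ h ih =>
    have h1 : (∑ n ∈ range N, a (n + (h + 1))) - ∑ n ∈ range N, a (n + h)
        = a (N + h) - a h := by
      have := sum_range_sub (fun n => a (n + h)) N
      simp only [zero_add] at this
      rw [← this, sum_sub_distrib]
      congr 1
      exact sum_congr rfl fun n _ => by congr 1; ring
    have h2 : ‖a (N + h) - a h‖ ≤ 2 := (norm_sub_le _ _).trans (by linarith [ha (N + h), ha h])
    calc ‖(∑ n ∈ range N, a (n + (h + 1))) - ∑ n ∈ range N, a n‖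
        = ‖((∑ n ∈ range N, a (n + (h + 1))) - ∑ n ∈ range N, a (n + h)) +
          ((∑ n ∈ range N, a (n + h)) - ∑ n ∈ range N, a n)‖ := by rw [sub_add_sub_cancel]
      _ ≤ 2 + 2 * h := (norm_add_le _ _).trans (add_le_add (h1 ▸ h2) ih)
      _ = 2 * ((h + 1 : ℕ) : ℝ) := by push_cast; ring

lemma avg_shift (N h : ℕ) (hN : 1 ≤ N) (a : ℕ → ℂ) (ha : ∀ n, ‖a n‖ ≤ 1) :
    ‖avg N (fun n => a (n + h)) - avg N a‖ ≤ 2 * h / N := by
  unfold avg
  rw [← sub_div, norm_div, Complex.norm_natCast]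
  gcongr
  exact norm_shift_sub N h a ha

lemma norm_sq_avg_le (N : ℕ) (a : ℕ → ℂ) : ‖avg N a‖ ^ 2 ≤ ravg N (fun n => ‖a n‖ ^ 2) := by
  rcases Nat.eq_zero_or_pos N with rfl | hN
  · simp [avg, ravg]
  have hN' : (0 : ℝ) < N := by exact_mod_cast hN
  have h1 := norm_avg_le_ravg N a
  have h2 : (ravg N (fun n => ‖a n‖)) ^ 2 ≤ ravg N (fun n => ‖a n‖ ^ 2) := by
    unfold ravg
    rw [div_pow, div_le_div_iff₀ (by positivity) hN']
    have h3 := sq_sum_le_card_mul_sum_sq (s := range N) (f := fun n => ‖a n‖)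
    rw [card_range] at h3
    calc (∑ n ∈ range N, ‖a n‖) ^ 2 * N ≤ (N * ∑ n ∈ range N, ‖a n‖ ^ 2) * N := by gcongr
      _ = (∑ n ∈ range N, ‖a n‖ ^ 2) * (N : ℝ) ^ 2 := by ring
  exact (pow_le_pow_left₀ (norm_nonneg _) h1 2).trans h2

/-- sums over differences -/
lemma sum_abs_diff_le (H h : ℕ) (hh : h < H) (a : ℕ → ℝ) (ha : ∀ n, 0 ≤ a n) :
    ∑ h' ∈ range H, a (if h' ≤ h then h - h' else h' - h) ≤ 2 * ∑ k ∈ range H, a k := by
  have h1 : ∑ h' ∈ range H, a (if h' ≤ h then h - h' else h' - h) ≤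
      ∑ h' ∈ (range H).filter (· ≤ h), a (h - h') +
      ∑ h' ∈ (range H).filter (fun h' => ¬ h' ≤ h), a (h' - h) := by
    rw [← sum_filter_add_sum_filter_not (range H) (· ≤ h)]
    refine add_le_add (le_of_eq ?_) (le_of_eq ?_)
    · refine sum_congr rfl fun x hx => ?_
      rw [if_pos (mem_filter.1 hx).2]
    · refine sum_congr rfl fun x hx => ?_
      rw [if_neg (mem_filter.1 hx).2]
  have h2 : ∑ h' ∈ (range H).filter (· ≤ h), a (h - h') ≤ ∑ k ∈ range H, a k := by
    rw [← sum_image (f := a) (g := fun h' => h - h')]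
    · refine sum_le_sum_of_subset_of_nonneg ?_ fun _ _ _ => ha _
      intro k hk
      simp only [mem_image, mem_filter, mem_range] at hk ⊢
      omega
    · intro x hx y hy hxy
      simp only [coe_filter, mem_range, Set.mem_ofPred_eq] at hx hy hxy
      omega
  have h3 : ∑ h' ∈ (range H).filter (fun h' => ¬ h' ≤ h), a (h' - h) ≤ ∑ k ∈ range H, a k := by
    rw [← sum_image (f := a) (g := fun h' => h' - h)]
    · refine sum_le_sum_of_subset_of_nonneg ?_ fun _ _ _ => ha _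
      intro k hk
      simp only [mem_image, mem_filter, mem_range] at hk ⊢
      omega
    · intro x hx y hy hxy
      simp only [coe_filter, mem_range, Set.mem_ofPred_eq] at hx hy hxy
      omega
  linarith

set_option linter.unusedSectionVars false

section
variable {X : Type} [MeasurableSpace X] {μ : Measure X} [IsProbabilityMeasure μ]

lemma Bdd.integrable {f : X → ℂ} (hf : Bdd f) : Integrable f μ :=
  Integrable.of_bound hf.meas.aestronglyMeasurable 1 (Eventually.of_forall hf.le)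

lemma bdd_mul {f g : X → ℂ} (hf : Bdd f) (hg : Bdd g) : Bdd (fun x => f x * g x) :=
  ⟨hf.meas.mul hg.meas, fun x => by
    rw [norm_mul]; exact mul_le_one₀ (hf.le x) (norm_nonneg _) (hg.le x)⟩

lemma bdd_conj {f : X → ℂ} (hf : Bdd f) : Bdd (fun x => conj (f x)) :=
  ⟨Complex.continuous_conj.measurable.comp hf.meas, fun x => by
    rw [RCLike.norm_conj]; exact hf.le x⟩

lemma bdd_const {c : ℂ} (hc : ‖c‖ ≤ 1) : Bdd (fun _ : X => c) :=
  ⟨measurable_const, fun _ => hc⟩

lemma bdd_comp (A : Act X μ) (k : ℤ) {f : X → ℂ} (hf : Bdd f) : Bdd (fun x => f (A.S k x)) :=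
  ⟨hf.meas.comp (A.mp k).measurable, fun _ => hf.le _⟩

lemma bdd_avg (N : ℕ) {v : ℕ → X → ℂ} (hv : ∀ s, Bdd (v s)) :
    Bdd (fun x => avg N (fun s => v s x)) :=
  ⟨by
    unfold avg
    exact (Finset.measurable_sum _ fun s _ => (hv s).meas).div_const _,
   fun x => norm_avg_le N _ 1 zero_le_one fun s _ => (hv s).le x⟩

lemma bdd_Dl (A : Act X μ) (k : ℤ) {f : X → ℂ} (hf : Bdd f) : Bdd (Dl A k f) :=
  bdd_mul (bdd_comp A k hf) (bdd_conj hf)

lemma bdd_list_prod (A : Act X μ) (L : List (ℤ × ℤ × (X → ℂ))) (hL : ∀ p ∈ L, Bdd p.2.2) (s : ℤ) :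
    Bdd (fun x => (L.map (fun p => p.2.2 (A.S (p.1 * s + p.2.1) x))).prod) := by
  induction L with
  | nil => simpa using bdd_const (X := X) (c := 1) (by simp)
  | cons p L ih =>
    simp only [List.map_cons, List.prod_cons]
    exact bdd_mul (bdd_comp A _ (hL p (by simp))) (ih fun q hq => hL q (by simp [hq]))

lemma integral_norm_sq_integrable {f : X → ℂ} (hf : Bdd f) :
    Integrable (fun x => ‖f x‖ ^ 2) μ :=
  Integrable.of_bound (hf.meas.norm.pow_const 2).aestronglyMeasurable 1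
    (Eventually.of_forall fun x => by
      rw [norm_pow, norm_norm]; exact pow_le_one₀ (norm_nonneg _) (hf.le x))

lemma n2_sq (f : X → ℂ) : n2 μ f ^ 2 = ∫ x, ‖f x‖ ^ 2 ∂μ := by
  unfold n2
  exact Real.sq_sqrt (integral_nonneg fun x => by positivity)

lemma n2_nonneg (f : X → ℂ) : 0 ≤ n2 μ f := Real.sqrt_nonneg _

lemma n2_le_one {f : X → ℂ} (hf : Bdd f) : n2 μ f ≤ 1 := by
  have h : n2 μ f ^ 2 ≤ 1 := by
    rw [n2_sq]
    calc ∫ x, ‖f x‖ ^ 2 ∂μ ≤ ∫ x, (1 : ℝ) ∂μ :=
          integral_mono (integral_norm_sq_integrable hf) (integrable_const _)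
            fun x => pow_le_one₀ (norm_nonneg _) (hf.le x)
      _ = 1 := by simp
  nlinarith [n2_nonneg (μ := μ) f]

/-- `|∫ f g| ≤ n2 g` for `f` bounded by one. -/
lemma norm_integral_mul_le {f g : X → ℂ} (hf : Bdd f) (hg : Bdd g) :
    ‖∫ x, f x * g x ∂μ‖ ≤ n2 μ g := by
  have h1 : ‖∫ x, f x * g x ∂μ‖ ≤ ∫ x, ‖g x‖ ∂μ := by
    refine (norm_integral_le_integral_norm _).trans (integral_mono
      (Bdd.integrable (bdd_mul hf hg)).norm (Bdd.integrable hg).norm fun x => ?_)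
    simp only [norm_mul]
    exact mul_le_of_le_one_left (norm_nonneg _) (hf.le x)
  have h2 : (∫ x, ‖g x‖ ∂μ) ^ 2 ≤ ∫ x, ‖g x‖ ^ 2 ∂μ := by
    have h3 : 0 ≤ ∫ x, (‖g x‖ - ∫ y, ‖g y‖ ∂μ) ^ 2 ∂μ := integral_nonneg fun x => sq_nonneg _
    set c := ∫ y, ‖g y‖ ∂μ with hc
    have h4 : ∫ x, (‖g x‖ - c) ^ 2 ∂μ = ∫ x, ‖g x‖ ^ 2 ∂μ - c ^ 2 := by
      have : ∀ x, (‖g x‖ - c) ^ 2 = (‖g x‖ ^ 2 - (2 * c) * ‖g x‖) + c ^ 2 := fun x => by ring
      simp_rw [this]
      rw [integral_add, integral_sub, integral_const_mul, ← hc]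
      · simp; ring
      · exact integral_norm_sq_integrable hg
      · exact (Bdd.integrable hg).norm.const_mul _
      · exact (integral_norm_sq_integrable hg).sub ((Bdd.integrable hg).norm.const_mul _)
      · exact integrable_const _
    linarith
  unfold n2
  exact h1.trans (Real.le_sqrt_of_sq_le h2)

lemma norm_integral_le_one {f : X → ℂ} (hf : Bdd f) : ‖∫ x, f x ∂μ‖ ≤ 1 := by
  refine (norm_integral_le_integral_norm _).trans ?_
  calc ∫ x, ‖f x‖ ∂μ ≤ ∫ x, (1 : ℝ) ∂μ :=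
        integral_mono (Bdd.integrable hf).norm (integrable_const _) hf.le
    _ = 1 := by simp

/-- van der Corput's inequality -/
theorem vdc (v : ℕ → X → ℂ) (hv : ∀ s, Bdd (v s)) (H N : ℕ) (hH : 1 ≤ H) (hN : 1 ≤ N) :
    n2 μ (fun x => avg N (fun s => v s x)) ^ 2 ≤
      2 * ravg H (fun h => ‖avg N (fun s => ∫ x, v (s + h) x * conj (v s x) ∂μ)‖) +
        10 * (H / N) := by
  have hHR : (1 : ℝ) ≤ H := by exact_mod_cast hH
  have hNR : (1 : ℝ) ≤ N := by exact_mod_cast hN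
  have hbdd := bdd_avg N hv
  have hnn : 0 ≤ ravg H (fun h => ‖avg N (fun s => ∫ x, v (s + h) x * conj (v s x) ∂μ)‖) :=
    ravg_nonneg _ _ fun _ _ => norm_nonneg _
  rcases lt_or_ge N H with hlt | hle
  · have h1 : n2 μ (fun x => avg N (fun s => v s x)) ^ 2 ≤ 1 :=
      pow_le_one₀ (n2_nonneg _) (n2_le_one hbdd)
    have h2 : (1 : ℝ) ≤ H / N := by
      rw [le_div_iff₀ (by linarith)]
      have : (N : ℝ) ≤ H := by exact_mod_cast hlt.le
      linarith
    linarith
  have hHN : (H : ℝ) / N ≤ 1 := by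
    rw [div_le_one (by linarith)]; exact_mod_cast hle
  have hHN0 : (0 : ℝ) ≤ H / N := by positivity
  set I : ℕ → ℕ → ℂ := fun a b => ∫ x, v a x * conj (v b x) ∂μ with hI
  have hI1 : ∀ a b, ‖I a b‖ ≤ 1 := fun a b => norm_integral_le_one (bdd_mul (hv a) (bdd_conj (hv b)))
  have hIc : ∀ a b, I b a = conj (I a b) := by
    intro a b
    simp only [hI]
    rw [← integral_conj]
    refine integral_congr_ae (Eventually.of_forall fun x => ?_)
    simp [mul_comm]
  -- pointwise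
  have hpt : ∀ x, ‖avg N (fun s => v s x)‖ ^ 2 ≤
      ravg N (fun s => ‖avg H (fun h => v (s + h) x)‖ ^ 2) + 8 * (H / N) := by
    intro x
    have h1 : ‖avg H (fun h => avg N (fun s => v (s + h) x)) - avg N (fun s => v s x)‖
        ≤ 2 * (H / N) := by
      have h2 : avg H (fun h => avg N (fun s => v (s + h) x)) - avg N (fun s => v s x) =
          avg H (fun h => avg N (fun s => v (s + h) x) - avg N (fun s => v s x)) := by
        have hH0 : (H : ℂ) ≠ 0 := by
          have : (H : ℝ) ≠ 0 := by linarith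
          exact_mod_cast this
        conv_rhs => unfold avg
        rw [sum_sub_distrib, sub_div]
        congr 1
        rw [sum_const, card_range, nsmul_eq_mul]
        field_simp
        simp [avg]
      rw [h2]
      refine norm_avg_le _ _ _ (by positivity) fun h hh => ?_
      refine (avg_shift N h hN (fun s => v s x) (fun s => (hv s).le x)).trans ?_
      have : (h : ℝ) ≤ H := by exact_mod_cast hh.le
      rw [mul_div_assoc]
      gcongr
    set P := avg H (fun h => avg N (fun s => v (s + h) x)) with hP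
    have hP' : P = avg N (fun s => avg H (fun h => v (s + h) x)) := by
      rw [hP]; exact avg_comm H N (fun h s => v (s + h) x)
    have h3 : ‖P‖ ^ 2 ≤ ravg N (fun s => ‖avg H (fun h => v (s + h) x)‖ ^ 2) := by
      rw [hP']; exact norm_sq_avg_le N _
    have h4 : ‖P‖ ≤ 1 := by
      refine norm_avg_le _ _ _ zero_le_one fun h _ => ?_
      exact norm_avg_le _ _ _ zero_le_one fun s _ => (hv _).le x
    have h5 : ‖avg N (fun s => v s x)‖ ≤ ‖P‖ + 2 * (H / N) := by
      calc ‖avg N (fun s => v s x)‖ = ‖P - (P - avg N (fun s => v s x))‖ := by congr 1; ring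
        _ ≤ _ := (norm_sub_le _ _).trans (by linarith)
    calc ‖avg N (fun s => v s x)‖ ^ 2 ≤ (‖P‖ + 2 * (H / N)) ^ 2 := by gcongr
      _ = ‖P‖ ^ 2 + (4 * ‖P‖ * (H / N) + 4 * (H / N) * (H / N)) := by ring
      _ ≤ ‖P‖ ^ 2 + (4 * 1 * (H / N) + 4 * 1 * (H / N)) := by gcongr
      _ ≤ _ := by linarith
  -- integrate
  have hbH : ∀ s, Bdd (fun x => avg H (fun h => v (s + h) x)) := fun s =>
    bdd_avg H (fun h => hv (s + h))
  have hint : n2 μ (fun x => avg N (fun s => v s x)) ^ 2 ≤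
      ravg N (fun s => ∫ x, ‖avg H (fun h => v (s + h) x)‖ ^ 2 ∂μ) + 8 * (H / N) := by
    rw [n2_sq]
    have h1 : ∫ x, (ravg N (fun s => ‖avg H (fun h => v (s + h) x)‖ ^ 2) + 8 * (H / N)) ∂μ =
        ravg N (fun s => ∫ x, ‖avg H (fun h => v (s + h) x)‖ ^ 2 ∂μ) + 8 * (H / N) := by
      unfold ravg
      rw [integral_add, integral_div, integral_finsetSum]
      · simp
      · exact fun s _ => integral_norm_sq_integrable (hbH s)
      · exact (integrable_finsetSum _ fun s _ => integral_norm_sq_integrable (hbH s)).div_const _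
      · exact integrable_const _
    rw [← h1]
    refine integral_mono (integral_norm_sq_integrable hbdd) ?_ hpt
    unfold ravg
    exact ((integrable_finsetSum _ fun s _ =>
      integral_norm_sq_integrable (hbH s)).div_const _).add (integrable_const _)
  have hexp : ∀ s, ((∫ x, ‖avg H (fun h => v (s + h) x)‖ ^ 2 ∂μ : ℝ) : ℂ) =
      avg H (fun h => avg H (fun h' => I (s + h) (s + h'))) := by
    intro s
    rw [← integral_complex_ofReal]
    have h1 : ∀ x, ((‖avg H (fun h => v (s + h) x)‖ ^ 2 : ℝ) : ℂ) =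
        avg H (fun h => avg H (fun h' => v (s + h) x * conj (v (s + h') x))) := by
      intro x
      rw [Complex.ofReal_pow, ← Complex.mul_conj', conj_avg, ← avg_mul_right]
      congr 1
      ext h
      rw [avg_mul_left]
    simp_rw [h1]
    unfold avg
    rw [integral_div, integral_finsetSum]
    · congr 1
      refine sum_congr rfl fun h _ => ?_
      rw [integral_div, integral_finsetSum]
      exact fun h' _ => Bdd.integrable (bdd_mul (hv _) (bdd_conj (hv _)))
    · intro h _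
      exact (integrable_finsetSum _ fun h' _ =>
        Bdd.integrable (bdd_mul (hv _) (bdd_conj (hv _)))).div_const _
  have hsum : ravg N (fun s => ∫ x, ‖avg H (fun h => v (s + h) x)‖ ^ 2 ∂μ) ≤
      ravg H (fun h => ravg H (fun h' => ‖avg N (fun s => I (s + h) (s + h'))‖)) := by
    have h1 : ((ravg N (fun s => ∫ x, ‖avg H (fun h => v (s + h) x)‖ ^ 2 ∂μ) : ℝ) : ℂ) =
        avg H (fun h => avg H (fun h' => avg N (fun s => I (s + h) (s + h')))) := by
      have h2 : ((ravg N (fun s => ∫ x, ‖avg H (fun h => v (s + h) x)‖ ^ 2 ∂μ) : ℝ) : ℂ) =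
          avg N (fun s => avg H (fun h => avg H (fun h' => I (s + h) (s + h')))) := by
        unfold ravg
        push_cast
        rw [avg]
        congr 1
        exact sum_congr rfl fun s _ => hexp s
      rw [h2, avg_comm N H]
      congr 1
      ext h
      rw [avg_comm N H]
    have h3 : ravg N (fun s => ∫ x, ‖avg H (fun h => v (s + h) x)‖ ^ 2 ∂μ) =
        ‖avg H (fun h => avg H (fun h' => avg N (fun s => I (s + h) (s + h'))))‖ := by
      rw [← h1, Complex.norm_real, Real.norm_of_nonneg]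
      exact ravg_nonneg _ _ fun s _ => integral_nonneg fun x => by positivity
    rw [h3]
    exact (norm_avg_le_ravg _ _).trans (ravg_mono _ _ _ fun h _ => norm_avg_le_ravg _ _)
  set a : ℕ → ℝ := fun k => ‖avg N (fun s => I (s + k) s)‖ with ha
  have hdiff : ∀ h < H, ∀ h' < H, ‖avg N (fun s => I (s + h) (s + h'))‖ ≤
      a (if h' ≤ h then h - h' else h' - h) + 2 * (H / N) := by
    intro h hh h' hh'
    have key : ∀ p q : ℕ, q < H → q ≤ p → ‖avg N (fun s => I (s + p) (s + q))‖ ≤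
        a (p - q) + 2 * (H / N) := by
      intro p q hq hqp
      have h1 := avg_shift N q hN (fun s => I (s + (p - q)) s) (fun s => hI1 _ _)
      have h2 : (fun n => (fun s => I (s + (p - q)) s) (n + q)) = fun s => I (s + p) (s + q) := by
        ext s
        simp only
        congr 1
        omega
      rw [h2] at h1
      have h3 : 2 * (q : ℝ) / N ≤ 2 * (H / N) := by
        rw [mul_div_assoc]
        have : (q : ℝ) ≤ H := by exact_mod_cast hq.le
        gcongr
      calc ‖avg N (fun s => I (s + p) (s + q))‖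
          = ‖(avg N (fun s => I (s + p) (s + q)) - avg N (fun s => I (s + (p - q)) s)) +
            avg N (fun s => I (s + (p - q)) s)‖ := by rw [sub_add_cancel]
        _ ≤ _ := (norm_add_le _ _).trans (by simp only [ha]; linarith)
    split_ifs with hc
    · exact key h h' hh' hc
    · have h1 := key h' h hh (by omega)
      have h2 : ‖avg N (fun s => I (s + h) (s + h'))‖ = ‖avg N (fun s => I (s + h') (s + h))‖ := by
        rw [← RCLike.norm_conj, conj_avg]
        congr 2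
        ext s
        exact (hIc _ _).symm
      rw [h2]; exact h1
  have hfin : ravg H (fun h => ravg H (fun h' => ‖avg N (fun s => I (s + h) (s + h'))‖)) ≤
      2 * ravg H a + 2 * (H / N) := by
    have h1 : ∀ h < H, ravg H (fun h' => ‖avg N (fun s => I (s + h) (s + h'))‖) ≤
        2 * ravg H a + 2 * (H / N) := by
      intro h hh
      refine (ravg_mono _ _ _ fun h' hh' => hdiff h hh h' hh').trans ?_
      rw [ravg_add, ravg_const H hH]
      gcongr
      unfold ravg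
      rw [← mul_div_assoc]
      gcongr
      exact sum_abs_diff_le H h hh a fun _ => norm_nonneg _
    refine (ravg_mono _ _ _ h1).trans ?_
    rw [ravg_const H hH]
  calc n2 μ (fun x => avg N (fun s => v s x)) ^ 2
      ≤ ravg N (fun s => ∫ x, ‖avg H (fun h => v (s + h) x)‖ ^ 2 ∂μ) + 8 * (H / N) := hint
    _ ≤ (2 * ravg H a + 2 * (H / N)) + 8 * (H / N) := by gcongr; exact hsum.trans hfin
    _ = _ := by ring

/-- Jensen for powers of averages -/
lemma ravg_pow_le (N : ℕ) (hN : 1 ≤ N) (a : ℕ → ℝ) (ha : ∀ n, 0 ≤ a n) (k : ℕ) :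
    (ravg N a) ^ k ≤ ravg N (fun n => a n ^ k) := by
  have hN' : (0 : ℝ) < N := by exact_mod_cast hN
  have h := Real.pow_arith_mean_le_arith_mean_pow (range N) (fun _ => (1 : ℝ) / N) a
    (fun _ _ => by positivity) (by simp [hN'.ne']) (fun n _ => ha n) k
  unfold ravg
  rw [← mul_sum, ← mul_sum] at h
  calc ((∑ n ∈ range N, a n) / N) ^ k = (1 / N * ∑ n ∈ range N, a n) ^ k := by
        congr 1; ring
    _ ≤ 1 / N * ∑ n ∈ range N, a n ^ k := h
    _ = _ := by ring

lemma S_add' (A : Act X μ) (a b : ℤ) (x : X) : A.S a (A.S b x) = A.S (a + b) x :=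
  (A.add a b x).symm

lemma factor_step (A : Act X μ) (g : X → ℂ) (α c s h α₁ c₁ : ℤ) (x : X) :
    g (A.S (α * (s + h) + c) (A.S (-(α₁ * s + c₁)) x)) *
      conj (g (A.S (α * s + c) (A.S (-(α₁ * s + c₁)) x))) =
    Dl A (α * h) g (A.S ((α - α₁) * s + (c - c₁)) x) := by
  unfold Dl
  rw [S_add', S_add', S_add']
  have h1 : α * (s + h) + c + -(α₁ * s + c₁) = α * h + ((α - α₁) * s + (c - c₁)) := by ring
  have h2 : α * s + c + -(α₁ * s + c₁) = (α - α₁) * s + (c - c₁) := by ring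
  rw [h1, h2]

lemma list_step (A : Act X μ) (L : List (ℤ × ℤ × (X → ℂ))) (s h α₁ c₁ : ℤ) (x : X) :
    (L.map (fun p => p.2.2 (A.S (p.1 * (s + h) + p.2.1) (A.S (-(α₁ * s + c₁)) x)))).prod *
      conj ((L.map (fun p => p.2.2 (A.S (p.1 * s + p.2.1) (A.S (-(α₁ * s + c₁)) x)))).prod) =
    ((L.map (fun p => (p.1 - α₁, p.2.1 - c₁, Dl A (p.1 * h) p.2.2))).map
      (fun p => p.2.2 (A.S (p.1 * s + p.2.1) x))).prod := by
  induction L with
  | nil => simp
  | cons p L ih =>
    simp only [List.map_cons, List.prod_cons, map_mul]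
    rw [← ih, ← factor_step A p.2.2 p.1 p.2.1 s h α₁ c₁ x]
    ring

lemma integral_comp_S (A : Act X μ) (k : ℤ) {F : X → ℂ} (hF : Measurable F) :
    ∫ x, F (A.S k x) ∂μ = ∫ x, F x ∂μ := by
  have h := (A.mp k).map_eq
  conv_rhs => rw [← h]
  rw [integral_map (A.mp k).measurable.aemeasurable hF.aestronglyMeasurable]

/-- The family of functions in the linear averages. -/
noncomputable def fam (A : Act X μ) (β c : ℤ) (f : X → ℂ) (L : List (ℤ × ℤ × (X → ℂ)))
    (z : ℕ → ℂ) (s : ℕ) (x : X) : ℂ :=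
  z s * f (A.S (β * s + c) x) * (L.map (fun p => p.2.2 (A.S (p.1 * s + p.2.1) x))).prod

lemma bdd_fam (A : Act X μ) (β c : ℤ) {f : X → ℂ} (hf : Bdd f) (L : List (ℤ × ℤ × (X → ℂ)))
    (hL : ∀ p ∈ L, Bdd p.2.2) (z : ℕ → ℂ) (hz : ∀ s, ‖z s‖ ≤ 1) (s : ℕ) :
    Bdd (fam A β c f L z s) :=
  bdd_mul (bdd_mul (bdd_const (hz s)) (bdd_comp A _ hf)) (bdd_list_prod A L hL s)

lemma av_nonneg (H : ℕ) : ∀ (t : ℕ) (G : List ℕ → ℝ), (∀ l, 0 ≤ G l) → 0 ≤ av t H G
  | 0, _, h => h []
  | t + 1, _, h => div_nonneg (sum_nonneg fun _ _ => av_nonneg H t _ fun _ => h _)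
      (Nat.cast_nonneg _)

lemma fam_base (A : Act X μ) (β c : ℤ) {f : X → ℂ} (hf : Bdd f) (z : ℕ → ℂ)
    (hz : ∀ s, ‖z s‖ ≤ 1) (N h : ℕ) :
    ‖avg N (fun s => ∫ x, fam A β c f [] z (s + h) x * conj (fam A β c f [] z s x) ∂μ)‖ ≤
      Cor A [β * h] f := by
  refine norm_avg_le _ _ _ (norm_nonneg _) fun s _ => ?_
  have h1 : ∫ x, fam A β c f [] z (s + h) x * conj (fam A β c f [] z s x) ∂μ =
      (z (s + h) * conj (z s)) * ∫ x, Dl A (β * h) f x ∂μ := by
    rw [← integral_const_mul, ← integral_comp_S A (-(0 * s + -(β * s + c))) (F := fun x =>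
      (z (s + h) * conj (z s)) * Dl A (β * h) f x) ((bdd_Dl A _ hf).meas.const_mul _)]
    refine integral_congr_ae (Eventually.of_forall fun x => ?_)
    simp only [fam, Dl, List.map_nil, List.prod_nil, mul_one, map_mul]
    rw [S_add']
    have e1 : β * ((s + h : ℕ) : ℤ) + c = β * h + -(0 * s + -(β * s + c)) := by
      push_cast; ring
    have e2 : -(0 * (s : ℤ) + -(β * s + c)) = β * s + c := by ring
    rw [e1, e2]
    ring
  rw [h1, norm_mul]
  refine mul_le_of_le_one_left (norm_nonneg _) ?_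
  rw [norm_mul, RCLike.norm_conj]
  exact mul_le_one₀ (hz _) (norm_nonneg _) (hz _)

lemma fam_step (A : Act X μ) (β c : ℤ) {f : X → ℂ} (hf : Bdd f) (p₁ : ℤ × ℤ × (X → ℂ))
    (hp₁ : Bdd p₁.2.2) (L : List (ℤ × ℤ × (X → ℂ))) (hL : ∀ p ∈ L, Bdd p.2.2) (z : ℕ → ℂ)
    (hz : ∀ s, ‖z s‖ ≤ 1) (N h : ℕ) :
    ‖avg N (fun s => ∫ x, fam A β c f (p₁ :: L) z (s + h) x *
      conj (fam A β c f (p₁ :: L) z s x) ∂μ)‖ ≤
      n2 μ (fun x => avg N (fun s => fam A (β - p₁.1) (c - p₁.2.1) (Dl A (β * h) f)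
        (L.map (fun p => (p.1 - p₁.1, p.2.1 - p₁.2.1, Dl A (p.1 * h) p.2.2)))
        (fun s => z (s + h) * conj (z s)) s x)) := by
  have hL' : ∀ p ∈ L.map (fun p => (p.1 - p₁.1, p.2.1 - p₁.2.1, Dl A (p.1 * h) p.2.2)),
      Bdd p.2.2 := by
    intro p hp
    obtain ⟨q, hq, rfl⟩ := List.mem_map.1 hp
    exact bdd_Dl A _ (hL q hq)
  have hz' : ∀ s, ‖(fun s => z (s + h) * conj (z s)) s‖ ≤ 1 := fun s => by
    simp only [norm_mul, RCLike.norm_conj]
    exact mul_le_one₀ (hz _) (norm_nonneg _) (hz _)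
  have hbf := bdd_fam A (β - p₁.1) (c - p₁.2.1) (bdd_Dl A (β * h) hf) _ hL' _ hz'
  have hG : Bdd (Dl A (p₁.1 * h) p₁.2.2) := bdd_Dl A _ hp₁
  have hbf0 := bdd_fam A β c hf (p₁ :: L) (fun p hp => by
    rcases List.mem_cons.1 hp with rfl | hp
    · exact hp₁
    · exact hL p hp) z hz
  have key : ∀ s : ℕ, ∫ x, fam A β c f (p₁ :: L) z (s + h) x *
      conj (fam A β c f (p₁ :: L) z s x) ∂μ =
      ∫ x, Dl A (p₁.1 * h) p₁.2.2 x * fam A (β - p₁.1) (c - p₁.2.1) (Dl A (β * h) f)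
        (L.map (fun p => (p.1 - p₁.1, p.2.1 - p₁.2.1, Dl A (p.1 * h) p.2.2)))
        (fun s => z (s + h) * conj (z s)) s x ∂μ := by
    intro s
    rw [← integral_comp_S A (-(p₁.1 * s + p₁.2.1)) (F := fun x => fam A β c f (p₁ :: L) z (s + h) x *
      conj (fam A β c f (p₁ :: L) z s x)) ((hbf0 _).meas.mul (bdd_conj (hbf0 _)).meas)]
    refine integral_congr_ae (Eventually.of_forall fun x => ?_)
    simp only [fam, List.map_cons, List.prod_cons, map_mul]
    push_cast
    rw [← list_step A L s h p₁.1 p₁.2.1 x, ← factor_step A f β c s h p₁.1 p₁.2.1 x]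
    have h3 := factor_step A p₁.2.2 p₁.1 p₁.2.1 s h p₁.1 p₁.2.1 x
    have h4 : (p₁.1 - p₁.1) * (s : ℤ) + (p₁.2.1 - p₁.2.1) = 0 := by ring
    rw [h4, A.zero] at h3
    rw [← h3]
    ring
  have h2 : avg N (fun s => ∫ x, fam A β c f (p₁ :: L) z (s + h) x *
      conj (fam A β c f (p₁ :: L) z s x) ∂μ) =
      ∫ x, Dl A (p₁.1 * h) p₁.2.2 x * avg N (fun s => fam A (β - p₁.1) (c - p₁.2.1)
        (Dl A (β * h) f) (L.map (fun p => (p.1 - p₁.1, p.2.1 - p₁.2.1, Dl A (p.1 * h) p.2.2)))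
        (fun s => z (s + h) * conj (z s)) s x) ∂μ := by
    simp_rw [key, ← avg_mul_left]
    unfold avg
    rw [integral_div, integral_finsetSum]
    exact fun s _ => Bdd.integrable (bdd_mul hG (hbf s))
  rw [h2]
  exact norm_integral_mul_le hG (bdd_avg N hbf)

end

/-- T6 with a nonnegative constant -/
theorem lin_bound_aux (m : ℕ) : ∃ C : ℝ, 1 ≤ C ∧ ∀ (X : Type) [MeasurableSpace X] (μ : Measure X)
    [IsProbabilityMeasure μ] (A : Act X μ) (L : List (ℤ × ℤ × (X → ℂ))), L.length = m →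
    (∀ p ∈ L, Bdd p.2.2) → ∀ (β c : ℤ) (f : X → ℂ), Bdd f → ∀ (z : ℕ → ℂ), (∀ s, ‖z s‖ ≤ 1) →
    ∀ (H N : ℕ), 1 ≤ H → 1 ≤ N →
    n2 μ (fun x => avg N (fun s => fam A β c f L z s x)) ^ (2 ^ (m + 1)) ≤
    C * (av (m + 1) H (fun l => Cor A (List.zipWith (fun (δ : ℤ) (h : ℕ) => δ * h)
      (β :: L.map (fun p => β - p.1)) l) f) + H / N) := by
  induction m with
  | zero =>
    refine ⟨10, by norm_num, ?_⟩
    intro X _ μ _ A L hLl hL β c f hf z hz H N hH hN
    obtain rfl := List.length_eq_zero_iff.1 hLl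
    have h1 := vdc (μ := μ) (fam A β c f [] z) (bdd_fam A β c hf [] hL z hz) H N hH hN
    have h2 : ravg H (fun h => ‖avg N (fun s => ∫ x, fam A β c f [] z (s + h) x *
        conj (fam A β c f [] z s x) ∂μ)‖) ≤ ravg H (fun h => Cor A [β * h] f) :=
      ravg_mono _ _ _ fun h _ => fam_base A β c hf z hz N h
    have h3 : av (0 + 1) H (fun l => Cor A (List.zipWith (fun (δ : ℤ) (h : ℕ) => δ * h)
      (β :: List.map (fun p : ℤ × ℤ × (X → ℂ) => β - p.1) []) l) f) =
        ravg H (fun h => Cor A [β * h] f) := by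
      simp [av, ravg]
    have h4 : 0 ≤ ravg H (fun h => Cor A [β * h] f) := ravg_nonneg _ _ fun _ _ => norm_nonneg _
    have h5 : (0 : ℝ) ≤ H / N := by positivity
    rw [h3]
    norm_num
    linarith
  | succ m ih =>
    obtain ⟨C, hC, ih⟩ := ih
    set k := 2 ^ (m + 1) with hk
    have hk1 : 1 ≤ k := Nat.one_le_two_pow
    refine ⟨2 ^ (k - 1) * (2 ^ k * C + 10 ^ k), ?_, ?_⟩
    · have h1 : (1 : ℝ) ≤ 2 ^ (k - 1) := one_le_pow₀ (by norm_num)
      have h2 : (1 : ℝ) ≤ 10 ^ k := one_le_pow₀ (by norm_num)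
      have h3 : (0 : ℝ) ≤ 2 ^ k * C := by positivity
      nlinarith
    intro X _ μ _ A L hLl hL β c f hf z hz H N hH hN
    obtain ⟨p₁, L, rfl⟩ := List.exists_cons_of_length_eq_add_one hLl
    have hp₁ : Bdd p₁.2.2 := hL p₁ (by simp)
    have hL' : ∀ p ∈ L, Bdd p.2.2 := fun p hp => hL p (by simp [hp])
    have hLl' : L.length = m := by simpa using hLl
    have hHN0 : (0 : ℝ) ≤ H / N := by positivity
    have hC0 : (0 : ℝ) ≤ 2 ^ (k - 1) * (2 ^ k * C + 10 ^ k) := by positivity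
    have hC1 : (1 : ℝ) ≤ 2 ^ (k - 1) * (2 ^ k * C + 10 ^ k) := by
      have h1 : (1 : ℝ) ≤ 2 ^ (k - 1) := one_le_pow₀ (by norm_num)
      have h2 : (1 : ℝ) ≤ 10 ^ k := one_le_pow₀ (by norm_num)
      have h3 : (0 : ℝ) ≤ 2 ^ k * C := by positivity
      nlinarith
    have hav0 : 0 ≤ av (m + 1 + 1) H (fun l => Cor A (List.zipWith (fun (δ : ℤ) (h : ℕ) => δ * h)
      (β :: (p₁ :: L).map (fun p => β - p.1)) l) f) := av_nonneg _ _ _ fun _ => norm_nonneg _
    have hbf := bdd_fam A β c hf (p₁ :: L) hL z hz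
    rcases lt_or_ge N H with hlt | hle
    · have h1 : n2 μ (fun x => avg N (fun s => fam A β c f (p₁ :: L) z s x)) ^ (2 ^ (m + 1 + 1)) ≤ 1 :=
        pow_le_one₀ (n2_nonneg _) (n2_le_one (bdd_avg N hbf))
      have h2 : (1 : ℝ) ≤ H / N := by
        have hN' : (0 : ℝ) < N := by exact_mod_cast hN
        rw [le_div_iff₀ hN', one_mul]
        exact_mod_cast hlt.le
      nlinarith
    have hHN1 : (H : ℝ) / N ≤ 1 := by
      have hN' : (0 : ℝ) < N := by exact_mod_cast hN
      rw [div_le_one hN']; exact_mod_cast hle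
    set a : ℕ → ℝ := fun h => n2 μ (fun x => avg N (fun s => fam A (β - p₁.1) (c - p₁.2.1)
        (Dl A (β * h) f) (L.map (fun p => (p.1 - p₁.1, p.2.1 - p₁.2.1, Dl A (p.1 * h) p.2.2)))
        (fun s => z (s + h) * conj (z s)) s x)) with ha
    have ha0 : ∀ h, 0 ≤ a h := fun h => n2_nonneg _
    have h1 : n2 μ (fun x => avg N (fun s => fam A β c f (p₁ :: L) z s x)) ^ 2 ≤
        2 * ravg H a + 10 * (H / N) := by
      refine (vdc (μ := μ) (fam A β c f (p₁ :: L) z) hbf H N hH hN).trans ?_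
      gcongr
      exact ravg_mono _ _ _ fun h _ => fam_step A β c hf p₁ hp₁ L hL' z hz N h
    have h2 : ∀ h, a h ^ k ≤ C * (av (m + 1) H (fun l => Cor A (List.zipWith
        (fun (δ : ℤ) (h : ℕ) => δ * h) ((p₁ :: L).map (fun p => β - p.1)) l)
          (Dl A (β * h) f)) + H / N) := by
      intro h
      have h3 := ih X μ A (L.map (fun p => (p.1 - p₁.1, p.2.1 - p₁.2.1, Dl A (p.1 * h) p.2.2)))
        (by simpa using hLl') (by
          intro p hp
          obtain ⟨q, hq, rfl⟩ := List.mem_map.1 hp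
          exact bdd_Dl A _ (hL' q hq)) (β - p₁.1) (c - p₁.2.1) (Dl A (β * h) f)
        (bdd_Dl A _ hf) (fun s => z (s + h) * conj (z s)) (fun s => by
          simp only [norm_mul, RCLike.norm_conj]
          exact mul_le_one₀ (hz _) (norm_nonneg _) (hz _)) H N hH hN
      have h4 : ((β - p₁.1) :: (L.map (fun p => (p.1 - p₁.1, p.2.1 - p₁.2.1,
          Dl A (p.1 * h) p.2.2))).map (fun p => (β - p₁.1) - p.1)) =
          (p₁ :: L).map (fun p => β - p.1) := by
        simp only [List.map_cons, List.map_map, List.cons.injEq, true_and]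
        refine List.map_congr_left fun p _ => ?_
        simp
      rw [h4] at h3
      exact h3
    have h5 : (ravg H a) ^ k ≤ C * (av (m + 1 + 1) H (fun l => Cor A (List.zipWith
        (fun (δ : ℤ) (h : ℕ) => δ * h) (β :: (p₁ :: L).map (fun p => β - p.1)) l) f) + H / N) := by
      refine (ravg_pow_le H hH a ha0 k).trans ((ravg_mono _ _ _ fun h _ => h2 h).trans ?_)
      rw [ravg_mul_left, ravg_add, ravg_const H hH]
      exact le_of_eq rfl
    calc n2 μ (fun x => avg N (fun s => fam A β c f (p₁ :: L) z s x)) ^ (2 ^ (m + 1 + 1))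
        = (n2 μ (fun x => avg N (fun s => fam A β c f (p₁ :: L) z s x)) ^ 2) ^ k := by
          rw [← pow_mul, hk]; congr 1; ring
      _ ≤ (2 * ravg H a + 10 * (H / N)) ^ k := by
          have := n2_nonneg (μ := μ) (fun x => avg N (fun s => fam A β c f (p₁ :: L) z s x))
          gcongr
      _ ≤ 2 ^ (k - 1) * ((2 * ravg H a) ^ k + (10 * (H / N)) ^ k) :=
          add_pow_le (mul_nonneg (by norm_num) (ravg_nonneg _ _ fun h _ => ha0 h))
            (by positivity) k
      _ ≤ 2 ^ (k - 1) * (2 ^ k * (C * (av (m + 1 + 1) H (fun l => Cor A (List.zipWith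
        (fun (δ : ℤ) (h : ℕ) => δ * h) (β :: (p₁ :: L).map (fun p => β - p.1)) l) f) + H / N)) +
          10 ^ k * (H / N)) := by
          rw [mul_pow, mul_pow]
          have h6 : ((H : ℝ) / N) ^ k ≤ H / N := by
            calc ((H : ℝ) / N) ^ k ≤ (H / N) ^ 1 := pow_le_pow_of_le_one hHN0 hHN1 hk1
              _ = H / N := pow_one _
          gcongr
      _ ≤ 2 ^ (k - 1) * (2 ^ k * C + 10 ^ k) * (av (m + 1 + 1) H (fun l => Cor A (List.zipWith
        (fun (δ : ℤ) (h : ℕ) => δ * h) (β :: (p₁ :: L).map (fun p => β - p.1)) l) f) + H / N) := by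
          have h7 : (0 : ℝ) ≤ 2 ^ (k - 1) * 10 ^ k * (av (m + 1 + 1) H (fun l => Cor A
            (List.zipWith (fun (δ : ℤ) (h : ℕ) => δ * h)
              (β :: (p₁ :: L).map (fun p => β - p.1)) l) f)) := by positivity
          linarith

end Pool.Agent.JE.LinAux

namespace Pool.Agent.JE

/-- T6: van der Corput bound for linear families. -/
theorem lin_bound (m : ℕ) : ∃ C : ℝ, ∀ (X : Type) [MeasurableSpace X] (μ : Measure X)
    [IsProbabilityMeasure μ] (A : Act X μ) (L : List (ℤ × ℤ × (X → ℂ))), L.length = m →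
    (∀ p ∈ L, Bdd p.2.2) → ∀ (β c : ℤ) (f : X → ℂ), Bdd f → ∀ (z : ℕ → ℂ), (∀ s, ‖z s‖ ≤ 1) →
    ∀ (H N : ℕ), 1 ≤ H → 1 ≤ N →
    n2 μ (fun x => avg N (fun s => z s * f (A.S (β * s + c) x) *
      (L.map (fun p => p.2.2 (A.S (p.1 * s + p.2.1) x))).prod)) ^ (2 ^ (m + 1)) ≤
    C * (av (m + 1) H (fun l => Cor A (List.zipWith (fun (δ : ℤ) (h : ℕ) => δ * h)
      (β :: L.map (fun p => β - p.1)) l) f) + H / N) := by
  obtain ⟨C, -, h⟩ := LinAux.lin_bound_aux m
  exact ⟨C, fun X _ μ _ A L hl hL β c f hf z hz H N hH hN =>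
    h X μ A L hl hL β c f hf z hz H N hH hN⟩

end Pool.Agent.JE
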